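import Pool.Agent.H15.G.R_seed8.TH434.NW.Near
import Pool.Agent.H15.G.R_seed8.H932R3.NearFinal

/-! Multiplicities `m` and `m + 1` at `4 N` points: from the window to all degrees (helper941, for
helper2). -/

set_option autoImplicit false

namespace Pool.Agent.TH941.NU

open Finset Pool.Agent.TH176.Nag Pool.Agent.TH603.Sur Pool.Agent.H932R3

/-- from the critical window to all degrees, any number `n ≥ 10` of points -/
theorem near_of_window {n m : ℕ} (hn : 10 ≤ n) (hm1 : 1 ≤ m) {w : Fin n → ℕ}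
    (hw : ∀ i, w i = m ∨ w i = m + 1)
    (H : (n : ℝ) - 6 * √(n : ℝ) + 10 ≤ m → ∀ d : ℕ,
      |√(n : ℝ) * (2 * d + 3) - (n + 2 * (∑ i, (w i : ℝ)))| ≤ 2 * √(n : ℝ) / 3 + 9 / 4 →
      ((d + 2).choose 2 ≤ cond w → Emp w (TZ d)) ∧ (cond w ≤ (d + 2).choose 2 → Sur w (TZ d)))
    {L : Type} [Field L] [CharZero L] :
    ∃ F : MvPolynomial (Fin n × Fin 2) ℚ, F ≠ 0 ∧ ∀ (P : Fin n → Fin 2 → L),
      MvPolynomial.aeval (fun ij : Fin n × Fin 2 => P ij.1 ij.2) F ≠ 0 →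
      ∀ d : ℕ, ExpDim L w P d := by
  rcases le_or_gt (((m + 1 : ℕ) : ℝ)) ((n : ℝ) - 6 * √(n : ℝ) + 11) with hsm | hlg
  · obtain ⟨F, hF, hF'⟩ := near_points (L := L) (n := n) (m := m) hn hm1 (w := w)
      hw (near_cond (by omega) hw (Or.inl hsm))
    exact ⟨F, hF, fun P hP d => hF' P hP d⟩
  have hmR : (n : ℝ) - 6 * √(n : ℝ) + 10 ≤ m := by push_cast at hlg; linarith
  have hcr := H hmR
  obtain ⟨F1, hF1, h1⟩ := Pool.Agent.TH434.NW.near_win (L := L) hn hm1 hw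
  have hnR : (10 : ℝ) ≤ n := by exact_mod_cast hn
  have hs1 : 1 ≤ √(n : ℝ) := Real.one_le_sqrt.2 (by linarith)
  have hs0 : 0 < √(n : ℝ) := by linarith
  have hss : √(n : ℝ) * √(n : ℝ) = n := Real.mul_self_sqrt (by linarith)
  obtain ⟨W, hW⟩ : ∃ W : ℝ, W = ∑ i, (w i : ℝ) := ⟨_, rfl⟩
  rw [← hW] at hcr h1
  obtain ⟨X, hX⟩ : ∃ X : ℝ, X = n + 2 * W + (2 * √(n : ℝ) / 3 + 9 / 4) := ⟨_, rfl⟩
  obtain ⟨F2, hF2, h2⟩ := expDim_two (w := w)
    (A := fun d => |√(n : ℝ) * (2 * d + 3) - (n + 2 * W)| ≤ 2 * √(n : ℝ) / 3 + 9 / 4 ∧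
      (d + 2).choose 2 ≤ Pool.Agent.TH603.Sur.cond w)
    (B := fun d => |√(n : ℝ) * (2 * d + 3) - (n + 2 * W)| ≤ 2 * √(n : ℝ) / 3 + 9 / 4 ∧
      Pool.Agent.TH603.Sur.cond w ≤ (d + 2).choose 2)
    ⌈X⌉₊ (fun d hd => by
      have h3 := (abs_le.1 hd.1).2
      have h4 := Nat.le_ceil X
      have h5 : (0 : ℝ) ≤ d := Nat.cast_nonneg d
      have h6 : (d : ℝ) ≤ √(n : ℝ) * (2 * d + 3) := by nlinarith
      have h7 : (d : ℝ) ≤ (⌈X⌉₊ : ℝ) := by linarith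
      exact_mod_cast h7)
    (fun d hd => (hcr d hd.1).1 hd.2) (fun d hd => (hcr d hd.1).2 hd.2)
  refine ⟨F1 * F2, mul_ne_zero hF1 hF2, fun P hP d => ?_⟩
  rw [map_mul] at hP
  rcases le_or_gt |√(n : ℝ) * (2 * d + 3) - (n + 2 * W)| (2 * √(n : ℝ) / 3 + 9 / 4) with h | h
  · refine h2 P (right_ne_zero_of_mul hP) d ?_
    rcases le_total ((d + 2).choose 2) (Pool.Agent.TH603.Sur.cond w) with h3 | h3
    · exact Or.inl ⟨h, h3⟩
    · exact Or.inr ⟨h, h3⟩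
  · refine h1 P (left_ne_zero_of_mul hP) d ?_
    have e1 : ∀ a : ℝ, √(n : ℝ) * (2 / 3 + a / (4 * √(n : ℝ))) = 2 / 3 * √(n : ℝ) + a / 4 := by
      intro a
      field_simp
    have e2 : √(n : ℝ) * (√(n : ℝ) + 2 * W / √(n : ℝ)) = n + 2 * W := by
      rw [mul_add, hss]
      congr 1
      field_simp
    rcases lt_abs.1 h with h3 | h3
    · right
      refine lt_of_le_of_lt (min_le_right _ _) ?_
      refine lt_of_mul_lt_mul_left ?_ hs0.le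
      rw [e1, mul_sub, e2]
      linarith
    · left
      refine lt_of_le_of_lt (min_le_right _ _) ?_
      refine lt_of_mul_lt_mul_left ?_ hs0.le
      rw [e1, mul_sub, e2]
      linarith

/-- the same at `4 N` points -/
theorem near4_of {N m : ℕ} (hN : 36 ≤ N) (hm1 : 1 ≤ m) {w : Fin (4 * N) → ℕ}
    (hw : ∀ i, w i = m ∨ w i = m + 1)
    (H : (4 * N : ℝ) - 6 * √(4 * N : ℝ) + 10 ≤ m → ∀ d : ℕ,
      |√(4 * N : ℝ) * (2 * d + 3) - (4 * N + 2 * (∑ i, (w i : ℝ)))| ≤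
        2 * √(4 * N : ℝ) / 3 + 9 / 4 →
      ((d + 2).choose 2 ≤ cond w → Emp w (TZ d)) ∧ (cond w ≤ (d + 2).choose 2 → Sur w (TZ d)))
    {L : Type} [Field L] [CharZero L] :
    ∃ F : MvPolynomial (Fin (4 * N) × Fin 2) ℚ, F ≠ 0 ∧ ∀ (P : Fin (4 * N) → Fin 2 → L),
      MvPolynomial.aeval (fun ij : Fin (4 * N) × Fin 2 => P ij.1 ij.2) F ≠ 0 →
      ∀ d : ℕ, ExpDim L w P d := by
  have e : ((4 * N : ℕ) : ℝ) = 4 * (N : ℝ) := by push_cast; ring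
  refine near_of_window (by omega) hm1 hw ?_
  rw [e]
  exact H

end Pool.Agent.TH941.NU
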