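import Pool.Agent.H15.G.R_seed8.TH2.NU.Defs
import Pool.Agent.H15.G.R_seed8.TH941.DB.Asm

set_option autoImplicit false

/-! Near-uniform vectors, NU4: the cluster system at one configuration for general base
multiplicity `b` and general exponent set `I`, from transversality in one step (NU2) and the convex
bound at one configuration (NU3). -/

namespace Pool.Agent.TH941.NU

open Finset Pool.Agent.TH176.Nag Pool.Agent.TH603.Sur Module Pool.Agent.TH763.DB
open Pool.Agent.TH2.NU Pool.Agent.TH941.DB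

/-- transversality in one step (statement of NU2) -/
def TransGen : Prop :=
  ∀ {K : Type} [Field K] [CharZero K] (x y : K) (b : ℕ) (I : Finset ℕ)
    (_ : I ⊆ range (b + 1)) {τ : Type} [Finite τ]
    (A : τ → Submodule K ((ℤ × ℤ) →₀ K)) (_ : ∀ s, FiniteDimensional K ↥(A s)),
    ∃ D E : K × K, D.1 * E.2 - D.2 * E.1 ≠ 0 ∧ ∀ s,
      finrank K ↥(A s ⊓ OdI x y D E b I) ≤
        max (finrank K ↥(A s ⊓ TopB x y b)) (finrank K ↥(A s) - I.card)

section
variable {K : Type} [Field K]

theorem mul_succ_of_topB {x y : K} {b : ℕ} {f : (ℤ × ℤ) →₀ K} (h1 : f ∈ Mul x y b)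
    (h2 : f ∈ TopB x y b) : f ∈ Mul x y (b + 1) := by
  rw [mem_Mul] at h1 ⊢
  unfold TopB at h2
  simp only [Submodule.mem_iInf] at h2
  intro P hP
  induction hP using Submodule.span_induction with
  | mem P h =>
    obtain ⟨a, c, hab, rfl⟩ := h
    by_cases hc : a + c < b
    · exact h1 _ (mem_PF_mono hc)
    · exact mem_Ker.1 (h2 a c (by omega))
  | zero =>
    unfold pr
    simp
  | add P Q _ _ h1 h2 =>
    rw [pr_add_right, h1, h2, add_zero]
  | smul c P _ h1 =>
    rw [pr_smul_right, h1, mul_zero]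

/-- the system with one more condition at the points of `J` -/
noncomputable def BC {N : ℕ} {κ : Type} (S : Finset (ℤ × ℤ)) (x y : Fin N → K) (x' y' : κ → K)
    (e : κ → ℕ) (b : ℕ) (J : Finset (Fin N)) : Submodule K ((ℤ × ℤ) →₀ K) :=
  Sys S (Sum.elim x x') (Sum.elim y y') (Sum.elim (fun i => b + if i ∈ J then 1 else 0) e)

theorem BC_le {N : ℕ} {κ : Type} (S : Finset (ℤ × ℤ)) (x y : Fin N → K) (x' y' : κ → K)
    (e : κ → ℕ) (b : ℕ) (J : Finset (Fin N)) :
    BC S x y x' y' e b J ≤ Finsupp.supported K K (↑S : Set (ℤ × ℤ)) := inf_le_left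

theorem BC_top {N : ℕ} {κ : Type} {S : Finset (ℤ × ℤ)} {x y : Fin N → K} {x' y' : κ → K}
    {e : κ → ℕ} {b : ℕ} {J : Finset (Fin N)} (p : Fin N) :
    BC S x y x' y' e b J ⊓ TopB (x p) (y p) b ≤ BC S x y x' y' e b (insert p J) := by
  rintro f ⟨hf, ht⟩
  refine ⟨hf.1, ?_⟩
  have h2 := hf.2
  rw [SetLike.mem_coe, Submodule.mem_iInf] at h2 ⊢
  intro i
  have h3 := h2 i
  rcases i with i | i
  · simp only [Sum.elim_inl] at h3 ⊢
    by_cases hip : i = p
    · subst hip
      by_cases hiJ : i ∈ J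
      · rw [if_pos hiJ] at h3
        rw [if_pos (Finset.mem_insert_self i J)]
        exact h3
      · rw [if_neg hiJ, add_zero] at h3
        rw [if_pos (Finset.mem_insert_self i J)]
        exact mul_succ_of_topB h3 ht
    · have : (i ∈ insert p J) ↔ i ∈ J := by
        rw [Finset.mem_insert]
        tauto
      simp only [this]
      exact h3
  · exact h3

end

/-- one configuration: directions with the cluster bound -/
theorem cluB_step (hT : TransGen) {N b : ℕ} {I : Finset ℕ} (hI : I ⊆ range (b + 1)) {κ : Type}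
    {e : κ → ℕ} {S : Finset (ℤ × ℤ)} {K : Type}
    [Field K] [CharZero K] (x y : Fin N → K) (x' y' : κ → K) (L : Finset (Fin N)) :
    ∃ D E : Fin N → K × K, (∀ i ∈ L, (D i).1 * (E i).2 - (D i).2 * (E i).1 ≠ 0) ∧
      ∀ J0 : Finset (Fin N), Disjoint L J0 → ∃ J ⊆ L,
        finrank K ↥(BC S x y x' y' e b J0 ⊓ ⨅ i ∈ L, OdI (x i) (y i) (D i) (E i) b I) ≤
          finrank K ↥(BC S x y x' y' e b (J ∪ J0)) - (L.card - J.card) * I.card := by
  classical
  induction L using Finset.induction_on with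
  | empty =>
    refine ⟨fun _ => 0, fun _ => 0, by simp, ?_⟩
    intro J0 _
    refine ⟨∅, subset_rfl, ?_⟩
    rw [Finset.empty_union, Finset.card_empty, Nat.sub_zero, Nat.zero_mul, Nat.sub_zero]
    exact finrank_le_of_le (BC_le S x y x' y' e b J0) inf_le_left
  | insert p L hp ih =>
    obtain ⟨D, E, hDE, hJ⟩ := ih
    obtain ⟨Dp, Ep, hdet, hA⟩ := hT (x p) (y p) b I hI
      (fun J0 : Finset (Fin N) => BC S x y x' y' e b J0 ⊓ ⨅ i ∈ L, OdI (x i) (y i) (D i) (E i) b I)
      (fun J0 => fin_of_le (inf_le_left.trans (BC_le S x y x' y' e b J0)))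
    refine ⟨Function.update D p Dp, Function.update E p Ep, ?_, ?_⟩
    · intro i hi
      by_cases hip : i = p
      · subst hip
        simpa using hdet
      · rw [Function.update_of_ne hip, Function.update_of_ne hip]
        exact hDE i ((Finset.mem_insert.1 hi).resolve_left hip)
    · intro J0 hJ0
      rw [Finset.disjoint_insert_left] at hJ0
      obtain ⟨hpJ0, hIJ0⟩ := hJ0
      have hle : BC S x y x' y' e b J0 ⊓ ⨅ i ∈ insert p L, OdI (x i) (y i)
          (Function.update D p Dp i) (Function.update E p Ep i) b I ≤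
          (BC S x y x' y' e b J0 ⊓ ⨅ i ∈ L, OdI (x i) (y i) (D i) (E i) b I) ⊓
            OdI (x p) (y p) Dp Ep b I := by
        rintro f ⟨hf1, hf2⟩
        simp only [SetLike.mem_coe, Submodule.mem_iInf] at hf2
        refine ⟨⟨hf1, ?_⟩, ?_⟩
        · simp only [SetLike.mem_coe, Submodule.mem_iInf]
          intro i hi
          have hip : i ≠ p := fun h => hp (h ▸ hi)
          have := hf2 i (Finset.mem_insert_of_mem hi)
          rwa [Function.update_of_ne hip, Function.update_of_ne hip] at this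
        · have := hf2 p (Finset.mem_insert_self p L)
          rwa [Function.update_self, Function.update_self] at this
      have h1 := finrank_le_of_le (S := S)
        ((inf_le_left.trans inf_le_left).trans (BC_le S x y x' y' e b J0)) hle
      have h2 := hA J0
      rcases le_max_iff.1 (h1.trans h2) with h3 | h3
      · -- the point `p` gets one more condition
        have hle2 : (BC S x y x' y' e b J0 ⊓ ⨅ i ∈ L, OdI (x i) (y i) (D i) (E i) b I) ⊓
            TopB (x p) (y p) b ≤
            BC S x y x' y' e b (insert p J0) ⊓ ⨅ i ∈ L, OdI (x i) (y i) (D i) (E i) b I := by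
          rintro f ⟨⟨hf1, hf2⟩, hf3⟩
          exact ⟨BC_top p ⟨hf1, hf3⟩, hf2⟩
        have h4 := finrank_le_of_le (S := S) (inf_le_left.trans (BC_le S x y x' y' e b _)) hle2
        obtain ⟨J, hJI, h5⟩ := hJ (insert p J0) (by
          rw [Finset.disjoint_insert_right]; exact ⟨hp, hIJ0⟩)
        refine ⟨insert p J, Finset.insert_subset_insert p hJI, ?_⟩
        have hpJ : p ∉ J := fun h => hp (hJI h)
        have e1 : insert p J ∪ J0 = J ∪ insert p J0 := by
          ext i
          simp only [Finset.mem_union, Finset.mem_insert]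
          tauto
        rw [e1, Finset.card_insert_of_notMem hp, Finset.card_insert_of_notMem hpJ,
          Nat.add_sub_add_right]
        exact h3.trans (h4.trans h5)
      · obtain ⟨J, hJI, h5⟩ := hJ J0 hIJ0
        refine ⟨J, hJI.trans (Finset.subset_insert p L), ?_⟩
        have hc := Finset.card_le_card hJI
        have e1 : (insert p L).card - J.card = (L.card - J.card) + 1 := by
          rw [Finset.card_insert_of_notMem hp]; omega
        rw [e1, add_mul, one_mul]
        omega

theorem cluB_conf (hT : TransGen) {N b : ℕ} {I : Finset ℕ} (hI : I ⊆ range (b + 1)) {κ : Type}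
    {e : κ → ℕ} (hN : 0 < N) {S : Finset (ℤ × ℤ)} {c0 : ℕ} {K : Type}
    [Field K] [CharZero K] (x y : Fin N → K) (x' y' : κ → K)
    (h : ∀ J : Finset (Fin N), N * finrank K ↥(Sys S (Sum.elim x x') (Sum.elim y y')
        (Sum.elim (fun i => b + if i ∈ J then 1 else 0) e)) ≤ (N - J.card) * c0) :
    ∃ D E : Fin N → K × K, (∀ i, (D i).1 * (E i).2 - (D i).2 * (E i).1 ≠ 0) ∧
      finrank K ↥(Sys S x' y' e ⊓ ⨅ i, CluB (x i) (y i) (D i) (E i) b I) ≤ c0 - N * I.card := by
  classical
  obtain ⟨D, E, hDE, hJ⟩ := cluB_step hT hI (e := e) (S := S) x y x' y' Finset.univ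
  refine ⟨D, E, fun i => hDE i (Finset.mem_univ i), ?_⟩
  obtain ⟨J, -, hJ1⟩ := hJ ∅ (Finset.disjoint_empty_right _)
  have hle : Sys S x' y' e ⊓ ⨅ i, CluB (x i) (y i) (D i) (E i) b I ≤
      BC S x y x' y' e b ∅ ⊓ ⨅ i ∈ (Finset.univ : Finset (Fin N)),
        OdI (x i) (y i) (D i) (E i) b I := by
    rintro f ⟨hf1, hf2⟩
    simp only [SetLike.mem_coe, Submodule.mem_iInf] at hf2
    have hf12 := hf1.2
    simp only [SetLike.mem_coe, Submodule.mem_iInf] at hf12
    refine ⟨⟨hf1.1, ?_⟩, ?_⟩
    · simp only [SetLike.mem_coe, Submodule.mem_iInf]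
      intro i
      rcases i with i | i
      · simp only [Sum.elim_inl, Finset.notMem_empty, if_false, add_zero]
        exact (hf2 i).1
      · exact hf12 i
    · simp only [SetLike.mem_coe, Submodule.mem_iInf]
      intro i _
      exact (hf2 i).2
  have h1 := finrank_le_of_le (S := S) (inf_le_left.trans (BC_le S x y x' y' e b ∅)) hle
  have h2 := h1.trans hJ1
  rw [Finset.union_empty, Finset.card_univ, Fintype.card_fin] at h2
  have h3 := h J
  change N * finrank K ↥(BC S x y x' y' e b J) ≤ (N - J.card) * c0 at h3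
  set F := finrank K ↥(BC S x y x' y' e b J) with hF
  set j := N - J.card with hj
  set m := I.card with hm
  have hjN : j ≤ N := Nat.sub_le _ _
  refine h2.trans ?_
  by_cases hc : F ≤ j * m
  · rw [Nat.sub_eq_zero_of_le hc]
    exact Nat.zero_le _
  · push Not at hc
    have hNm : N * m < c0 := by
      by_contra hcon
      push Not at hcon
      have a1 : N * F ≤ j * (N * m) := h3.trans (Nat.mul_le_mul_left j hcon)
      have a2 : N * (j * m) < N * F := Nat.mul_lt_mul_of_pos_left hc hN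
      have a3 : j * (N * m) = N * (j * m) := by ring
      omega
    have b1 : N * (F - j * m) ≤ N * (c0 - N * m) := by
      have a1 : N * (F - j * m) = N * F - N * (j * m) := Nat.mul_sub N F (j * m)
      have a2 : j * (c0 - N * m) = j * c0 - j * (N * m) := Nat.mul_sub j c0 (N * m)
      have a3 : j * (N * m) = N * (j * m) := by ring
      have a4 : j * (c0 - N * m) ≤ N * (c0 - N * m) := Nat.mul_le_mul_right _ hjN
      omega
    exact Nat.le_of_mul_le_mul_left b1 hN

/-- NU4 from NU2 and NU3 -/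
theorem exists_cluB_of (hT : TransGen) {N b : ℕ} {I : Finset ℕ} (hI : I ⊆ range (b + 1)) {κ : Type}
    {e : κ → ℕ} (hN : 0 < N) {S : Finset (ℤ × ℤ)} {c0 : ℕ}
    (h4 : ∃ (K : Type) (_ : Field K) (_ : CharZero K) (x y : Fin N → K) (x' y' : κ → K),
      (∀ i, x i ≠ 0) ∧ (∀ i, y i ≠ 0) ∧ (∀ i, x' i ≠ 0) ∧ (∀ i, y' i ≠ 0) ∧
      ∀ J : Finset (Fin N), N * finrank K ↥(Sys S (Sum.elim x x') (Sum.elim y y')
        (Sum.elim (fun i => b + if i ∈ J then 1 else 0) e)) ≤ (N - J.card) * c0) :
    ∃ (K : Type) (_ : Field K) (_ : CharZero K) (x y : Fin N → K) (x' y' : κ → K)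
      (D E : Fin N → K × K),
      (∀ i, x i ≠ 0) ∧ (∀ i, y i ≠ 0) ∧ (∀ i, x' i ≠ 0) ∧ (∀ i, y' i ≠ 0) ∧
      (∀ i, (D i).1 * (E i).2 - (D i).2 * (E i).1 ≠ 0) ∧
      finrank K ↥(Sys S x' y' e ⊓ ⨅ i, CluB (x i) (y i) (D i) (E i) b I) ≤ c0 - N * I.card := by
  obtain ⟨K, hF, hC, x, y, x', y', h1, h2, h3, h5, h6⟩ := h4
  obtain ⟨D, E, hDE, hle⟩ := cluB_conf hT hI hN x y x' y' h6
  exact ⟨K, hF, hC, x, y, x', y', D, E, h1, h2, h3, h5, hDE, hle⟩

end Pool.Agent.TH941.NU
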